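import Pool.Agent.H27.Khin4

open MeasureTheory ProbabilityTheory Set Filter Topology
open Pool.Agent.H27.Khin

namespace Pool.Agent.Results.MP_47485c_an.NotKhintchin

theorem result {Ω : Type} [MeasurableSpace Ω] (P : Measure Ω) [IsProbabilityMeasure P]
    (p : ℝ) (hp0 : 0 < p) (hp1 : p < 1) (w : ℕ → Ω → ℕ) (hm : ∀ n, Measurable (w n))
    (hind : iIndepFun w P)
    (h2 : ∀ n, P {a | w n a = 2} = ENNReal.ofReal p)
    (h3 : ∀ n, P {a | w n a = 3} = ENNReal.ofReal (1 - p)) :
    ∀ᵐ a ∂P, ∃ f : UnitAddCircle → ℝ, Measurable f ∧ (∀ t, f t = 0 ∨ f t = 1) ∧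
      Integrable f volume ∧
      0 < volume {t : UnitAddCircle | ¬ Tendsto
        (fun N : ℕ => (1 / (N : ℝ)) * ∑ n ∈ Finset.range N,
          f ((∏ i ∈ Finset.range (n + 1), w i a) • t)) atTop (𝓝 (∫ s, f s))} := by
  haveI := probT
  let b : ℕ → Ω → Bool := fun n a => decide (w n a = 2)
  have mb : ∀ n, Measurable (b n) := fun n =>
    (measurable_of_countable fun m : ℕ => decide (m = 2)).comp (hm n)
  have ib : iIndepFun b P :=
    hind.comp (fun _ m => decide (m = 2)) fun _ => measurable_of_countable _
  haveI : ∀ n, IsProbabilityMeasure (P.map (b n)) := fun n =>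
    Measure.isProbabilityMeasure_map (mb n).aemeasurable
  have ht : ∀ n, P.map (b n) {true} = ENNReal.ofReal p := by
    intro n
    rw [Measure.map_apply (mb n) (measurableSet_singleton _), ← h2 n]
    congr 1; ext a; simp [b]
  have he : ∀ n, P.map (b n) = P.map (b 0) := by
    intro n
    refine Measure.ext_of_singleton fun c => ?_
    cases c
    · have : ({false} : Set Bool) = {true}ᶜ := by ext c; cases c <;> simp
      rw [this, prob_compl_eq_one_sub (measurableSet_singleton _),
        prob_compl_eq_one_sub (measurableSet_singleton _), ht, ht]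
    · rw [ht, ht]
  have hν : (P.map (b 0)).real {true} = p := by
    rw [measureReal_def, ht, ENNReal.toReal_ofReal hp0.le]
  have hmap : P.map (fun a n => b n a) = PP (P.map (b 0)) := by
    rw [ib.map_fun_eq_infinitePi_map mb]
    congr 1; funext n; exact he n
  have h1 := main (P.map (b 0)) hν hp0 hp1
  rw [← hmap] at h1
  have h1' := ae_of_ae_map (measurable_pi_iff.2 mb).aemeasurable h1
  have h23 : ∀ᵐ a ∂P, ∀ n, w n a = 2 ∨ w n a = 3 := by
    rw [ae_all_iff]; intro n
    have m2 : MeasurableSet {a | w n a = 2} := hm n (measurableSet_singleton 2)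
    have m3 : MeasurableSet {a | w n a = 3} := hm n (measurableSet_singleton 3)
    have : P ({a | w n a = 2} ∪ {a | w n a = 3}) = 1 := by
      rw [measure_union (disjoint_left.2 fun a h h' => by
        simp only [mem_setOf_eq] at h h'; omega) m3, h2, h3,
        ← ENNReal.ofReal_add hp0.le (by linarith)]
      simp
    exact (prob_compl_eq_zero_iff (m2.union m3)).2 this
  filter_upwards [h1', h23] with a ha ha'
  obtain ⟨E, mE, hE⟩ := determ hp0.le hp1.le _ ha
  refine ⟨E.indicator fun _ => 1, measurable_const.indicator mE, fun t => ?_,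
    (integrable_const _).indicator mE, ?_⟩
  · by_cases h : t ∈ E <;> simp [h]
  · rw [pos_iff_ne_zero]
    intro h0
    apply hE
    rw [ae_iff]
    have e : ∀ n, lam (fun i => b i a) n = ∏ i ∈ Finset.range n, w i a := fun n =>
      Finset.prod_congr rfl fun i _ => by rcases ha' i with h | h <;> simp [b, h]
    rw [integral_indicator_const _ mE, smul_eq_mul, mul_one] at h0
    simp only [← e] at h0
    exact h0

end Pool.Agent.Results.MP_47485c_an.NotKhintchin
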